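import Mathlib

set_option autoImplicit false

namespace Pool.Agent.Results.MP_e2add3_co.No

def masks : List ℕ :=
  [140507136, 1039536128, 804655104, 1039536128, 804655104, 140475392, 140475392, 140507136,
   140507136, 804655104, 1072693344, 933233121, 301990911, 933233121, 933233121, 1072693633,
   933233121, 301990911, 301990911, 933233121, 34815, 650782, 34815, 650782, 650782, 1048084,
   650782, 34815, 1047562, 650782]

def adjB (u v : Fin 3 × Fin 10) : Bool :=
  (masks.getD (10 * u.1.val + u.2.val) 0).testBit (10 * v.1.val + v.2.val)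

def G : SimpleGraph (Fin 3 × Fin 10) where
  Adj u v := adjB u v = true
  symm := ⟨by decide +kernel⟩
  loopless := ⟨by decide +kernel⟩

instance : DecidableRel G.Adj := fun u v => inferInstanceAs (Decidable (adjB u v = true))

def T : List (Fin 10 × Fin 10 × Fin 10) :=
  [(0,5,0), (0,5,2), (0,5,7), (1,2,8), (1,7,8), (1,8,8), (2,2,5), (2,7,5), (2,8,5), (3,2,8),
   (3,7,8), (3,8,8), (4,2,5), (4,7,5), (4,8,5), (5,0,0), (5,0,2), (5,0,7), (6,0,0), (6,0,2),
   (6,0,7), (7,5,0), (7,5,2), (7,5,7), (8,5,0), (8,5,2), (8,5,7), (9,2,5), (9,7,5), (9,8,5)]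

def tri (x : Fin 10 × Fin 10 × Fin 10) : Finset (Fin 3 × Fin 10) :=
  {(0, x.1), (1, x.2.1), (2, x.2.2)}

def lst (x : Fin 10 × Fin 10 × Fin 10) : List (Fin 3 × Fin 10) :=
  [(0, x.1), (1, x.2.1), (2, x.2.2)]

set_option synthInstance.maxSize 4000 in
lemma key : ∀ a b : Fin 3 × Fin 10, adjB a b = true → ∀ c : Fin 3 × Fin 10, adjB a c = true →
    adjB b c = true → ∃ x ∈ T, a ∈ lst x ∧ b ∈ lst x ∧ c ∈ lst x := by decide +kernel

lemma few : (G.cliqueFinset 3).card ≤ 30 := by
  have h : G.cliqueFinset 3 ⊆ (T.map tri).toFinset := by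
    intro s hs
    have hs' := SimpleGraph.mem_cliqueFinset_iff.1 hs
    have hc := hs'.card_eq
    obtain ⟨a, b, c, hab, hac, hbc, rfl⟩ := SimpleGraph.is3Clique_iff.1 hs'
    obtain ⟨x, hx, ha, hb, hc'⟩ := key a b hab c hac hbc
    rw [List.mem_toFinset, List.mem_map]
    refine ⟨x, hx, (Finset.eq_of_subset_of_card_le ?_ ?_).symm⟩
    · intro v hv
      simp only [Finset.mem_insert, Finset.mem_singleton] at hv
      simp only [lst, List.mem_cons, List.not_mem_nil, or_false] at ha hb hc'
      simp only [tri, Finset.mem_insert, Finset.mem_singleton]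
      rcases hv with rfl | rfl | rfl <;> assumption
    · rw [hc]
      exact Finset.card_le_three
  refine (Finset.card_le_card h).trans ((List.toFinset_card_le _).trans ?_)
  rw [List.length_map]
  decide

/-- It is false that for all `t ≥ 1` and `n ≥ 5t` every tripartite graph with three classes of
size `n` and minimum degree at least `n + t` has at least `4 t^3` triangles. -/
theorem result :
    ¬ (∀ (t n : ℕ), 1 ≤ t → 5 * t ≤ n →
      ∀ (G : SimpleGraph (Fin 3 × Fin n)) [DecidableRel G.Adj],
        (∀ u v, G.Adj u v → u.1 ≠ v.1) → n + t ≤ G.minDegree →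
        4 * t ^ 3 ≤ (G.cliqueFinset 3).card) := by
  intro h
  have h1 := h 2 10 (by norm_num) (by norm_num) G (by decide +kernel)
    (G.le_minDegree_of_forall_le_degree _ (by decide +kernel))
  have h2 := few
  omega

end Pool.Agent.Results.MP_e2add3_co.No
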